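import Mathlib
import Pool.Agent.Helper507.PNT

set_option autoImplicit false

open Finset Filter Topology

namespace Pool.Agent.Helper507.Harm

/-- `H A` is the sum of the reciprocals of the elements of `A`. -/
noncomputable def H (A : Finset ℕ) : ℝ := ∑ n ∈ A, (1 : ℝ) / (n : ℝ)

/-- `L n` is the least common multiple of `1, 2, ..., n`. -/
def L (n : ℕ) : ℕ := (Finset.Icc 1 n).lcm id

lemma L_pos (n : ℕ) : 0 < L n := by
  rw [Nat.pos_iff_ne_zero]
  simp [L, Finset.lcm_eq_zero_iff]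

lemma dvd_L {n k : ℕ} (h1 : 1 ≤ k) (h2 : k ≤ n) : k ∣ L n :=
  Finset.dvd_lcm (f := id) (Finset.mem_Icc.2 ⟨h1, h2⟩)

/-- the integer `L_N H(A)` -/
def Y (N : ℕ) (A : Finset ℕ) : ℤ := ∑ n ∈ A, ((L N / n : ℕ) : ℤ)

lemma mul_H {N : ℕ} {A : Finset ℕ} (hA : A ⊆ Icc 1 N) : (L N : ℝ) * H A = (Y N A : ℝ) := by
  unfold H Y
  rw [Finset.mul_sum, Int.cast_sum]
  refine Finset.sum_congr rfl fun k hk => ?_
  have hk' := hA hk
  rw [Finset.mem_Icc] at hk'
  have hk0 : (k : ℝ) ≠ 0 := by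
    have : 0 < k := hk'.1
    positivity
  rw [Int.cast_natCast, Nat.cast_div (dvd_L hk'.1 hk'.2) hk0]
  field_simp

/-- The integer `L_N H(A)` modulo a prime `p ≤ N`. -/
lemma Y_mod {N p : ℕ} (hp : p.Prime) (hpN : p ≤ N) {A : Finset ℕ} (hA : A ⊆ Icc 1 N) :
    (p : ℤ) ∣ Y N A - ∑ m ∈ (Icc 1 (N / p)).filter (fun m => p * m ∈ A),
      ((L N / (p * m) : ℕ) : ℤ) := by
  have h1 : ∑ m ∈ (Icc 1 (N / p)).filter (fun m => p * m ∈ A), ((L N / (p * m) : ℕ) : ℤ) =
      ∑ n ∈ A.filter (fun n => p ∣ n), ((L N / n : ℕ) : ℤ) := by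
    refine Finset.sum_bij (fun m _ => p * m) ?_ ?_ ?_ ?_
    · intro m hm
      rw [Finset.mem_filter] at hm ⊢
      exact ⟨hm.2, dvd_mul_right _ _⟩
    · intro a _ b _ hab
      exact Nat.eq_of_mul_eq_mul_left hp.pos hab
    · intro n hn
      rw [Finset.mem_filter] at hn
      obtain ⟨m, rfl⟩ := hn.2
      have := hA hn.1
      rw [Finset.mem_Icc] at this
      refine ⟨m, ?_, rfl⟩
      rw [Finset.mem_filter, Finset.mem_Icc]
      refine ⟨⟨?_, ?_⟩, hn.1⟩
      · rcases m with _ | m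
        · simp at this
        · omega
      · rw [Nat.le_div_iff_mul_le hp.pos, mul_comm]
        exact this.2
    · intro m _
      rfl
  rw [h1]
  unfold Y
  rw [← Finset.sum_filter_add_sum_filter_not A (fun n => p ∣ n), add_sub_cancel_left]
  refine Finset.dvd_sum fun k hk => ?_
  rw [Finset.mem_filter] at hk
  have hk' := hA hk.1
  rw [Finset.mem_Icc] at hk'
  have hp0 : 1 ≤ p := hp.one_lt.le
  have hcop : Nat.Coprime k p := ((Nat.Prime.coprime_iff_not_dvd hp).2 hk.2).symm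
  have hkL : k * p ∣ L N :=
    Nat.Coprime.mul_dvd_of_dvd_of_dvd hcop (dvd_L hk'.1 hk'.2) (dvd_L hp0 hpN)
  have : p ∣ L N / k := (Nat.dvd_div_iff_mul_dvd (dvd_L hk'.1 hk'.2)).2 hkL
  exact_mod_cast this

/-- Number of residue classes of the integers `L_N H(A)` modulo `p`, where `j = N / p`. -/
def nu (j : ℕ) : ℕ := if j ≤ 5 then 2 ^ j else 13 * 2 ^ (j - 4)

lemma nu_pos (j : ℕ) : 0 < nu j := by
  unfold nu
  split_ifs <;> positivity

lemma emod_eq_of_dvd {p : ℕ} {a b : ℤ} (h : (p : ℤ) ∣ a - b) : a % p = b % p :=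
  ((Int.modEq_iff_dvd.2 h : b ≡ a [ZMOD p])).symm

lemma dvd_of_emod_eq {p : ℕ} {a b : ℤ} (h : a % p = b % p) : (p : ℤ) ∣ a - b :=
  Int.ModEq.dvd (show b ≡ a [ZMOD p] from h.symm)

lemma class_card {N p : ℕ} (hp : p.Prime) (hpN : p ≤ N) (T : Finset ℤ)
    (hT : ∀ y ∈ T, ∃ A : Finset ℕ, A ⊆ Icc 1 N ∧ y = Y N A) :
    (T.image (fun y => y % (p : ℤ))).card ≤ nu (N / p) := by
  classical
  set j : ℕ := N / p with hj
  unfold nu
  split_ifs with h5
  · have hsub : T.image (fun y => y % (p : ℤ)) ⊆ (powerset (Icc 1 j)).image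
        (fun B => (∑ m ∈ B, ((L N / (p * m) : ℕ) : ℤ)) % (p : ℤ)) := by
      intro r hr
      rw [Finset.mem_image] at hr ⊢
      obtain ⟨y, hy, rfl⟩ := hr
      obtain ⟨A, hA, rfl⟩ := hT y hy
      refine ⟨(Icc 1 j).filter (fun m => p * m ∈ A), ?_, ?_⟩
      · rw [Finset.mem_powerset]
        exact Finset.filter_subset _ _
      · exact (emod_eq_of_dvd (Y_mod hp hpN hA)).symm
    calc (T.image (fun y => y % (p : ℤ))).card ≤ _ := Finset.card_le_card hsub
      _ ≤ (powerset (Icc 1 j)).card := Finset.card_image_le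
      _ = 2 ^ j := by rw [Finset.card_powerset, Nat.card_Icc, Nat.add_sub_cancel]
  · push Not at h5
    set S0 : Finset ℕ := {1, 2, 3, 6} with hS0
    have hS0sub : S0 ⊆ Icc 1 j := by
      intro m hm
      rw [hS0] at hm
      simp only [Finset.mem_insert, Finset.mem_singleton] at hm
      rw [Finset.mem_Icc]
      omega
    set R : Finset ℕ := Icc 1 j \ S0 with hR
    have hRcard : R.card = j - 4 := by
      rw [hR, Finset.card_sdiff_of_subset hS0sub, Nat.card_Icc, Nat.add_sub_cancel]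
      rfl
    have h6p : 6 * p ∣ L N := by
      refine dvd_L ?_ ?_
      · have := hp.pos
        omega
      · have : 6 ≤ N / p := h5
        rw [Nat.le_div_iff_mul_le hp.pos] at this
        exact this
    obtain ⟨k, hk⟩ := h6p
    have hterm : ∀ m ∈ S0, L N / (p * m) = k * (6 / m) := by
      intro m hm
      rw [hS0] at hm
      simp only [Finset.mem_insert, Finset.mem_singleton] at hm
      have hp0 := hp.pos
      rw [hk]
      rcases hm with rfl | rfl | rfl | rfl
      · apply Nat.div_eq_of_eq_mul_right (by positivity); ring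
      · apply Nat.div_eq_of_eq_mul_right (by positivity); ring
      · apply Nat.div_eq_of_eq_mul_right (by positivity); ring
      · apply Nat.div_eq_of_eq_mul_right (by positivity); ring
    have hsub : T.image (fun y => y % (p : ℤ)) ⊆ ((range 13) ×ˢ powerset R).image
        (fun q => ((k : ℤ) * (q.1 : ℤ) + ∑ m ∈ q.2, ((L N / (p * m) : ℕ) : ℤ)) % (p : ℤ)) := by
      intro r hr
      rw [Finset.mem_image] at hr ⊢
      obtain ⟨y, hy, rfl⟩ := hr
      obtain ⟨A, hA, rfl⟩ := hT y hy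
      set B := (Icc 1 j).filter (fun m => p * m ∈ A) with hB
      refine ⟨(∑ m ∈ S0.filter (fun m => m ∈ B), 6 / m, R.filter (fun m => m ∈ B)), ?_, ?_⟩
      · rw [Finset.mem_product]
        refine ⟨?_, ?_⟩
        · simp only [Finset.mem_range]
          calc ∑ m ∈ S0.filter (fun m => m ∈ B), 6 / m ≤ ∑ m ∈ S0, 6 / m :=
                Finset.sum_le_sum_of_subset (Finset.filter_subset _ _)
            _ < 13 := by rw [hS0]; decide
        · simp only [Finset.mem_powerset]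
          exact Finset.filter_subset _ _
      · have h1 := emod_eq_of_dvd (Y_mod hp hpN hA)
        rw [h1]
        congr 1
        have hBsplit : B = S0.filter (fun m => m ∈ B) ∪ R.filter (fun m => m ∈ B) := by
          ext m
          simp only [Finset.mem_union, Finset.mem_filter, hR, Finset.mem_sdiff]
          constructor
          · intro hm
            have hm' : m ∈ Icc 1 j := by
              rw [hB, Finset.mem_filter] at hm
              exact hm.1
            by_cases h0 : m ∈ S0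
            · exact Or.inl ⟨h0, hm⟩
            · exact Or.inr ⟨⟨hm', h0⟩, hm⟩
          · rintro (h | h)
            · exact h.2
            · exact h.2
        have hdisj : Disjoint (S0.filter (fun m => m ∈ B)) (R.filter (fun m => m ∈ B)) := by
          rw [Finset.disjoint_left]
          intro m hm hm2
          rw [Finset.mem_filter] at hm hm2
          rw [hR, Finset.mem_sdiff] at hm2
          exact hm2.1.2 hm.1
        conv_rhs => rw [← hj, ← hB, hBsplit, Finset.sum_union hdisj]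
        congr 1
        push_cast
        rw [Finset.mul_sum]
        refine Finset.sum_congr rfl fun m hm => ?_
        rw [Finset.mem_filter] at hm
        rw [← Nat.cast_mul p m, ← Int.natCast_div, hterm m hm.1]
        push_cast
        rfl
    calc (T.image (fun y => y % (p : ℤ))).card ≤ _ := Finset.card_le_card hsub
      _ ≤ ((range 13) ×ˢ powerset R).card := Finset.card_image_le
      _ = 13 * 2 ^ (j - 4) := by
        rw [Finset.card_product, Finset.card_range, Finset.card_powerset, hRcard]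

/-- Gallagher's larger sieve, in the form we need. -/
lemma larger_sieve (T : Finset ℤ) (P : Finset ℕ) (hP : ∀ p ∈ P, p.Prime) (ν : ℕ → ℕ)
    (hν : ∀ p ∈ P, (T.image (fun y => y % (p : ℤ))).card ≤ ν p) (hν0 : ∀ p ∈ P, 0 < ν p)
    (X : ℝ) (hX : 1 ≤ X) (hT : ∀ y ∈ T, ∀ z ∈ T, |((y - z : ℤ) : ℝ)| ≤ X) :
    (T.card : ℝ) ^ 2 * ∑ p ∈ P, Real.log p / ν p ≤
      T.card * ∑ p ∈ P, Real.log p + (T.card : ℝ) ^ 2 * Real.log X := by
  classical
  set c : ℕ → ℕ := fun p => ((T ×ˢ T).filter fun q => q.1 % (p : ℤ) = q.2 % (p : ℤ)).card with hc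
  have hlog : ∀ p ∈ P, 0 ≤ Real.log p := fun p hp => Real.log_natCast_nonneg p
  -- Cauchy-Schwarz
  have h1 : ∀ p ∈ P, (T.card : ℝ) ^ 2 / ν p ≤ c p := by
    intro p hp
    have hν0' : (0 : ℝ) < ν p := by exact_mod_cast hν0 p hp
    rw [div_le_iff₀ hν0']
    set I := T.image (fun y => y % (p : ℤ)) with hI
    set f : ℤ → ℕ := fun r => (T.filter fun y => y % (p : ℤ) = r).card with hf
    have e1 : ∑ r ∈ I, f r = T.card :=
      (Finset.card_eq_sum_card_image (fun y : ℤ => y % (p : ℤ)) T).symm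
    have e2 : ∑ r ∈ I, f r * f r = c p := by
      have e3 : c p = ∑ y ∈ T, f (y % (p : ℤ)) := by
        rw [hc]
        simp only
        rw [Finset.card_filter, Finset.sum_product]
        refine Finset.sum_congr rfl fun y _ => ?_
        rw [hf]
        simp only
        rw [Finset.card_filter]
        refine Finset.sum_congr rfl fun z _ => ?_
        by_cases h : y % (p : ℤ) = z % (p : ℤ)
        · rw [if_pos h, if_pos h.symm]
        · rw [if_neg h, if_neg (fun h' => h h'.symm)]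
      rw [e3, Finset.sum_comp f (fun y : ℤ => y % (p : ℤ))]
      simp only [smul_eq_mul]
      rfl
    have h2 := sq_sum_le_card_mul_sum_sq (s := I) (f := fun r => (f r : ℝ))
    have e1' : ∑ r ∈ I, (f r : ℝ) = T.card := by exact_mod_cast e1
    have e2' : ∑ r ∈ I, (f r : ℝ) ^ 2 = c p := by
      rw [← e2]
      push_cast
      refine Finset.sum_congr rfl fun r _ => ?_
      ring
    rw [e1', e2'] at h2
    refine h2.trans ?_
    rw [mul_comm]
    have : (I.card : ℝ) ≤ ν p := by exact_mod_cast hν p hp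
    gcongr
  -- divisibility
  have h2 : ∀ q ∈ T ×ˢ T, ∑ p ∈ P.filter (fun p : ℕ => q.1 % (p : ℤ) = q.2 % (p : ℤ)), Real.log p ≤
      (if q.1 = q.2 then ∑ p ∈ P, Real.log p else 0) + Real.log X := by
    intro q hq
    rw [Finset.mem_product] at hq
    have hlX : 0 ≤ Real.log X := Real.log_nonneg hX
    by_cases hq0 : q.1 = q.2
    · rw [if_pos hq0]
      have : ∑ p ∈ P.filter (fun p : ℕ => q.1 % (p : ℤ) = q.2 % (p : ℤ)), Real.log p ≤
          ∑ p ∈ P, Real.log p :=
        Finset.sum_le_sum_of_subset_of_nonneg (Finset.filter_subset _ _)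
          (fun p hp _ => hlog p hp)
      linarith
    · rw [if_neg hq0, zero_add]
      have hd0 : q.1 - q.2 ≠ 0 := sub_ne_zero.2 hq0
      have hdvd : ∏ p ∈ P.filter (fun p : ℕ => q.1 % (p : ℤ) = q.2 % (p : ℤ)), p ∣
          (q.1 - q.2).natAbs := by
        refine Finset.prod_primes_dvd _ (fun p hp => ?_) (fun p hp => ?_)
        · rw [Finset.mem_filter] at hp
          exact (hP p hp.1).prime
        · rw [Finset.mem_filter] at hp
          exact Int.natCast_dvd.1 (dvd_of_emod_eq hp.2)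
      have hle := Nat.le_of_dvd (Int.natAbs_pos.2 hd0) hdvd
      rw [← Real.log_prod]
      · refine Real.log_le_log ?_ ?_
        · refine Finset.prod_pos fun p hp => ?_
          rw [Finset.mem_filter] at hp
          exact_mod_cast (hP p hp.1).pos
        · refine le_trans ?_ (hT q.1 hq.1 q.2 hq.2)
          have h8 : |((q.1 - q.2 : ℤ) : ℝ)| = (((q.1 - q.2).natAbs : ℕ) : ℝ) := by
            rw [Nat.cast_natAbs, Int.cast_abs]
          rw [h8, ← Nat.cast_prod]
          exact Nat.cast_le.2 hle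
      · intro p hp
        rw [Finset.mem_filter] at hp
        have := (hP p hp.1).pos
        positivity
  have h3 : ∑ p ∈ P, Real.log p * c p =
      ∑ q ∈ T ×ˢ T, ∑ p ∈ P.filter (fun p : ℕ => q.1 % (p : ℤ) = q.2 % (p : ℤ)), Real.log p := by
    simp only [Finset.sum_filter]
    rw [Finset.sum_comm]
    refine Finset.sum_congr rfl fun p _ => ?_
    rw [hc]
    simp only
    rw [Finset.card_filter]
    push_cast
    rw [Finset.mul_sum]
    refine Finset.sum_congr rfl fun q _ => ?_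
    by_cases h : q.1 % (p : ℤ) = q.2 % (p : ℤ)
    · rw [if_pos h, if_pos h, mul_one]
    · rw [if_neg h, if_neg h, mul_zero]
  calc (T.card : ℝ) ^ 2 * ∑ p ∈ P, Real.log p / ν p
      = ∑ p ∈ P, Real.log p * ((T.card : ℝ) ^ 2 / ν p) := by
        rw [Finset.mul_sum]
        refine Finset.sum_congr rfl fun p _ => ?_
        ring
    _ ≤ ∑ p ∈ P, Real.log p * c p := by
        refine Finset.sum_le_sum fun p hp => ?_
        exact mul_le_mul_of_nonneg_left (h1 p hp) (hlog p hp)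
    _ = _ := h3
    _ ≤ ∑ q ∈ T ×ˢ T, ((if q.1 = q.2 then ∑ p ∈ P, Real.log p else 0) + Real.log X) :=
        Finset.sum_le_sum h2
    _ = T.card * ∑ p ∈ P, Real.log p + (T.card : ℝ) ^ 2 * Real.log X := by
        rw [Finset.sum_add_distrib, Finset.sum_const, Finset.card_product, ← Finset.sum_filter,
          Finset.sum_const]
        have : ((T ×ˢ T).filter fun q => q.1 = q.2).card = T.card := by
          rw [Finset.card_filter, Finset.sum_product]
          simp
        rw [this]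
        simp only [nsmul_eq_mul]
        push_cast
        ring

lemma log_L (n : ℕ) : Real.log (L n) = Chebyshev.psi n := (Chebyshev.psi_eq_log_lcmUpto n).symm

lemma theta_sub {n m : ℕ} (hle : m ≤ n) :
    Chebyshev.theta n - Chebyshev.theta m =
      ∑ p ∈ (Finset.Ioc m n).filter Nat.Prime, Real.log p := by
  unfold Chebyshev.theta
  rw [Nat.floor_natCast, Nat.floor_natCast]
  have hu : (Finset.Ioc 0 n).filter Nat.Prime =
      (Finset.Ioc 0 m).filter Nat.Prime ∪ (Finset.Ioc m n).filter Nat.Prime := by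
    rw [← Finset.filter_union, Finset.Ioc_union_Ioc_eq_Ioc (Nat.zero_le _) hle]
  have hd : Disjoint ((Finset.Ioc 0 m).filter Nat.Prime)
      ((Finset.Ioc m n).filter Nat.Prime) := by
    rw [Finset.disjoint_left]
    intro p hp hq
    rw [Finset.mem_filter, Finset.mem_Ioc] at hp hq
    omega
  rw [hu, Finset.sum_union hd]
  ring

lemma bounds {ε : ℝ} (hε : 0 < ε) : ∃ X : ℝ, 1 ≤ X ∧ ∀ x ≥ X,
    (1 - ε) * x ≤ Chebyshev.theta x ∧ Chebyshev.theta x ≤ (1 + ε) * x ∧
    (1 - ε) * x ≤ Chebyshev.psi x ∧ Chebyshev.psi x ≤ (1 + ε) * x := by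
  have h1 := (Metric.tendsto_atTop.1 Pool.Agent.Helper507.PNT.theta_div_tendsto) ε hε
  have h2 := (Metric.tendsto_atTop.1 Pool.Agent.Helper507.PNT.psi_div_tendsto) ε hε
  obtain ⟨N1, hN1⟩ := h1
  obtain ⟨N2, hN2⟩ := h2
  refine ⟨max 1 (max N1 N2), le_max_left _ _, fun x hx => ?_⟩
  have hx0 : 0 < x := by
    have := le_trans (le_max_left _ _) hx
    linarith
  have a1 := hN1 x (le_trans (le_trans (le_max_left _ _) (le_max_right _ _)) hx)
  have a2 := hN2 x (le_trans (le_trans (le_max_right _ _) (le_max_right _ _)) hx)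
  rw [Real.dist_eq, abs_lt] at a1 a2
  have e1 : Chebyshev.theta x / x * x = Chebyshev.theta x := by field_simp
  have e2 : Chebyshev.psi x / x * x = Chebyshev.psi x := by field_simp
  refine ⟨?_, ?_, ?_, ?_⟩ <;> nlinarith [a1.1, a1.2, a2.1, a2.2]

/-- the summand `log p / ν(N / p)` -/
noncomputable def F (N i : ℕ) : ℝ := if i.Prime then Real.log i / (nu (N / i) : ℝ) else 0

lemma piece (N : ℕ) {j : ℕ} (hj : 1 ≤ j) :
    ∑ i ∈ Ioc (N / (j + 1)) (N / j), F N i =
      (Chebyshev.theta (N / j : ℕ) - Chebyshev.theta (N / (j + 1) : ℕ)) / (nu j : ℝ) := by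
  have hle : N / (j + 1) ≤ N / j := Nat.div_le_div_left (by omega) (by omega)
  rw [theta_sub hle, Finset.sum_div, Finset.sum_filter]
  refine Finset.sum_congr rfl fun i hi => ?_
  rw [Finset.mem_Ioc] at hi
  unfold F
  split_ifs with hp
  · have h1 : N / i = j := by
      have hi0 : 0 < i := hp.pos
      have h2 : j ≤ N / i := by
        rw [Nat.le_div_iff_mul_le hi0, mul_comm]
        rw [Nat.le_div_iff_mul_le (by omega)] at hi
        exact hi.2
      have h3 : N / i < j + 1 := by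
        rw [Nat.div_lt_iff_lt_mul hi0, mul_comm]
        rw [Nat.div_lt_iff_lt_mul (by omega)] at hi
        exact hi.1
      omega
    rw [h1]
  · rfl

lemma sumF (N : ℕ) : ∑ p ∈ (Ioc (N / 9) N).filter Nat.Prime, Real.log p / (nu (N / p) : ℝ) =
    Chebyshev.theta (N : ℕ) / 2 - Chebyshev.theta (N / 2 : ℕ) / 4 -
    Chebyshev.theta (N / 3 : ℕ) / 8 - Chebyshev.theta (N / 4 : ℕ) / 16 -
    Chebyshev.theta (N / 5 : ℕ) / 32 - 5 * Chebyshev.theta (N / 6 : ℕ) / 416 -
    Chebyshev.theta (N / 7 : ℕ) / 104 - Chebyshev.theta (N / 8 : ℕ) / 208 -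
    Chebyshev.theta (N / 9 : ℕ) / 208 := by
  rw [Finset.sum_filter]
  have e : ∑ a ∈ Ioc (N / 9) N, (if Nat.Prime a then Real.log a / (nu (N / a) : ℝ) else 0) =
      ∑ i ∈ Ioc (N / 9) N, F N i := rfl
  rw [e]
  have d : ∀ a b : ℕ, 1 ≤ a → a ≤ b → N / b ≤ N / a := fun a b h1 h2 =>
    Nat.div_le_div_left h2 h1
  have d1 : N / 1 = N := Nat.div_one N
  rw [← Finset.sum_Ioc_consecutive (F N) (d 8 9 (by norm_num) (by norm_num))
      (show N / 8 ≤ N from Nat.div_le_self _ _),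
    ← Finset.sum_Ioc_consecutive (F N) (d 7 8 (by norm_num) (by norm_num))
      (show N / 7 ≤ N from Nat.div_le_self _ _),
    ← Finset.sum_Ioc_consecutive (F N) (d 6 7 (by norm_num) (by norm_num))
      (show N / 6 ≤ N from Nat.div_le_self _ _),
    ← Finset.sum_Ioc_consecutive (F N) (d 5 6 (by norm_num) (by norm_num))
      (show N / 5 ≤ N from Nat.div_le_self _ _),
    ← Finset.sum_Ioc_consecutive (F N) (d 4 5 (by norm_num) (by norm_num))
      (show N / 4 ≤ N from Nat.div_le_self _ _),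
    ← Finset.sum_Ioc_consecutive (F N) (d 3 4 (by norm_num) (by norm_num))
      (show N / 3 ≤ N from Nat.div_le_self _ _),
    ← Finset.sum_Ioc_consecutive (F N) (d 2 3 (by norm_num) (by norm_num))
      (show N / 2 ≤ N from Nat.div_le_self _ _)]
  have p8 := piece N (j := 8) (by norm_num)
  have p7 := piece N (j := 7) (by norm_num)
  have p6 := piece N (j := 6) (by norm_num)
  have p5 := piece N (j := 5) (by norm_num)
  have p4 := piece N (j := 4) (by norm_num)
  have p3 := piece N (j := 3) (by norm_num)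
  have p2 := piece N (j := 2) (by norm_num)
  have p1 := piece N (j := 1) (by norm_num)
  rw [d1] at p1
  norm_num [nu] at p8 p7 p6 p5 p4 p3 p2 p1
  rw [p8, p7, p6, p5, p4, p3, p2, p1]
  ring

lemma sumF_lower {ε : ℝ} (hε : 0 < ε) : ∃ N0 : ℕ, ∀ N : ℕ, N0 ≤ N →
    (30694 / 100000 - ε) * N ≤
      ∑ p ∈ (Ioc (N / 9) N).filter Nat.Prime, Real.log p / (nu (N / p) : ℝ) := by
  obtain ⟨X, hX, hb⟩ := bounds hε
  have hXn : X ≤ (⌈X⌉₊ : ℝ) := Nat.le_ceil X
  refine ⟨9 * ⌈X⌉₊ + 9, fun N hN => ?_⟩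
  rw [sumF]
  have hb' : ∀ j : ℕ, 1 ≤ j → j ≤ 9 →
      Chebyshev.theta (N / j : ℕ) ≤ (1 + ε) * ((N : ℝ) / j) := by
    intro j h1 h9
    have h2 : ⌈X⌉₊ ≤ N / j := by
      rw [Nat.le_div_iff_mul_le (by omega)]
      calc ⌈X⌉₊ * j ≤ ⌈X⌉₊ * 9 := Nat.mul_le_mul_left _ h9
        _ ≤ N := by omega
    have h3 : X ≤ ((N / j : ℕ) : ℝ) := hXn.trans (by exact_mod_cast h2)
    obtain ⟨-, h4, -, -⟩ := hb _ h3
    refine h4.trans ?_
    have : ((N / j : ℕ) : ℝ) ≤ (N : ℝ) / j := Nat.cast_div_le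
    gcongr
  have hN1 : X ≤ (N : ℝ) := hXn.trans (by
    have : ⌈X⌉₊ ≤ N := by omega
    exact_mod_cast this)
  obtain ⟨h1, -, -, -⟩ := hb _ hN1
  have b2 := hb' 2 (by norm_num) (by norm_num)
  have b3 := hb' 3 (by norm_num) (by norm_num)
  have b4 := hb' 4 (by norm_num) (by norm_num)
  have b5 := hb' 5 (by norm_num) (by norm_num)
  have b6 := hb' 6 (by norm_num) (by norm_num)
  have b7 := hb' 7 (by norm_num) (by norm_num)
  have b8 := hb' 8 (by norm_num) (by norm_num)
  have b9 := hb' 9 (by norm_num) (by norm_num)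
  push_cast at b2 b3 b4 b5 b6 b7 b8 b9
  have hN0 : (0 : ℝ) ≤ N := Nat.cast_nonneg _
  have hεN : 0 ≤ ε * N := by positivity
  nlinarith

/-- A bounded number of sums of distinct unit fractions lies in a very short interval. -/
lemma cluster_aux : ∃ K : ℕ, ∀ (N : ℕ) (x : ℝ) (T : Finset ℝ),
    (∀ t ∈ T, (∃ A : Finset ℕ, A ⊆ Icc 1 N ∧ t = H A) ∧
      |t - x| ≤ Real.exp (-(69308 / 100000 * N))) → T.card ≤ K := by
  classical
  obtain ⟨N1, hN1⟩ := sumF_lower (show (0 : ℝ) < 1 / 1000000 by norm_num)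
  obtain ⟨X, hX, hb⟩ := bounds (show (0 : ℝ) < 1 / 1000000 by norm_num)
  have hXn : X ≤ (⌈X⌉₊ : ℝ) := Nat.le_ceil X
  set N0 : ℕ := N1 + ⌈X⌉₊ + 1000000 with hN0
  refine ⟨2 ^ N0 + 300000, fun N x T hT => ?_⟩
  by_cases hN : N < N0
  · -- trivial bound
    have h1 : T ⊆ (powerset (Icc 1 N)).image H := by
      intro t ht
      obtain ⟨⟨A, hA, rfl⟩, -⟩ := hT t ht
      exact Finset.mem_image_of_mem _ (Finset.mem_powerset.2 hA)
    have h2 := (Finset.card_le_card h1).trans Finset.card_image_le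
    rw [Finset.card_powerset, Nat.card_Icc, Nat.add_sub_cancel] at h2
    have h3 : 2 ^ N ≤ 2 ^ N0 := Nat.pow_le_pow_right (by norm_num) hN.le
    omega
  push Not at hN
  have hNR : ((N1 : ℝ) + ⌈X⌉₊ + 1000000) ≤ N := by exact_mod_cast hN
  have hN1nn : (0 : ℝ) ≤ N1 := Nat.cast_nonneg _
  have hXnn : (0 : ℝ) ≤ (⌈X⌉₊ : ℝ) := Nat.cast_nonneg _
  -- the integers
  choose! A hA using fun t (ht : t ∈ T) => (hT t ht).1
  set T' : Finset ℤ := T.image (fun t => Y N (A t)) with hT'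
  have hLpos : (0 : ℝ) < L N := by exact_mod_cast L_pos N
  have hY : ∀ t ∈ T, (Y N (A t) : ℝ) = L N * t := by
    intro t ht
    rw [← mul_H (hA t ht).1, ← (hA t ht).2]
  have hcard : T'.card = T.card := by
    rw [hT']
    refine Finset.card_image_of_injOn ?_
    intro s hs t ht hst
    have h1 : (Y N (A s) : ℝ) = (Y N (A t) : ℝ) := by
      simp only at hst
      rw [hst]
    rw [hY s hs, hY t ht] at h1
    exact mul_left_cancel₀ hLpos.ne' h1
  set M : ℝ := max 0 (1 + Chebyshev.psi N - 69308 / 100000 * N) with hM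
  have hdiff : ∀ y ∈ T', ∀ z ∈ T', |((y - z : ℤ) : ℝ)| ≤ Real.exp M := by
    intro y hy z hz
    rw [hT', Finset.mem_image] at hy hz
    obtain ⟨s, hs, rfl⟩ := hy
    obtain ⟨t, ht, rfl⟩ := hz
    push_cast
    rw [hY s hs, hY t ht, ← mul_sub, abs_mul, abs_of_pos hLpos]
    have h1 : |s - t| ≤ 2 * Real.exp (-(69308 / 100000 * N)) := by
      have e : s - t = (s - x) - (t - x) := by ring
      rw [e]
      have := abs_sub (s - x) (t - x)
      have h2 := (hT s hs).2
      have h3 := (hT t ht).2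
      linarith
    have h2 : (2 : ℝ) ≤ Real.exp 1 := by
      have := Real.exp_one_gt_d9
      linarith
    have h3 : (L N : ℝ) = Real.exp (Chebyshev.psi N) := by
      rw [← log_L, Real.exp_log hLpos]
    calc (L N : ℝ) * |s - t| ≤ L N * (2 * Real.exp (-(69308 / 100000 * N))) := by gcongr
      _ ≤ L N * (Real.exp 1 * Real.exp (-(69308 / 100000 * N))) := by gcongr
      _ = Real.exp (1 + Chebyshev.psi N - 69308 / 100000 * N) := by
        rw [h3, ← Real.exp_add, ← Real.exp_add]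
        congr 1
        ring
      _ ≤ Real.exp M := Real.exp_le_exp.2 (le_max_right _ _)
  have hls := larger_sieve T' ((Ioc (N / 9) N).filter Nat.Prime)
    (fun p hp => (Finset.mem_filter.1 hp).2) (fun p => nu (N / p))
    (fun p hp => by
      rw [Finset.mem_filter, Finset.mem_Ioc] at hp
      refine class_card hp.2 hp.1.2 T' ?_
      intro y hy
      rw [hT', Finset.mem_image] at hy
      obtain ⟨s, hs, rfl⟩ := hy
      exact ⟨A s, (hA s hs).1, rfl⟩)
    (fun p _ => nu_pos _) (Real.exp M) (Real.one_le_exp (le_max_left _ _)) hdiff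
  rw [Real.log_exp, hcard] at hls
  have h1 := hN1 N (by omega)
  have h2 : ∑ p ∈ (Ioc (N / 9) N).filter Nat.Prime, Real.log (p : ℝ) ≤ 2 * N := by
    rw [← theta_sub (Nat.div_le_self _ _)]
    obtain ⟨-, h3, -, -⟩ := hb N (by linarith)
    have h4 : 0 ≤ Chebyshev.theta (N / 9 : ℕ) := Chebyshev.theta_nonneg _
    have h5 : (0 : ℝ) ≤ N := Nat.cast_nonneg _
    linarith
  have hMle : M ≤ (306922 / 1000000) * N := by
    rw [hM]
    obtain ⟨-, -, -, h3⟩ := hb N (by linarith)
    refine max_le (by positivity) ?_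
    linarith
  set k : ℝ := (T.card : ℝ) with hk
  have hk0 : 0 ≤ k := Nat.cast_nonneg _
  have h3 : k ^ 2 * ((30694 / 100000 - 1 / 1000000) * N) ≤ k * (2 * N) +
      k ^ 2 * ((306922 / 1000000) * N) := by
    calc k ^ 2 * ((30694 / 100000 - 1 / 1000000) * N) ≤ _ := mul_le_mul_of_nonneg_left h1 (sq_nonneg k)
      _ ≤ _ := hls
      _ ≤ _ := by gcongr
  have hNpos : (0 : ℝ) < N := by linarith
  have h4 : k ^ 2 * (17 / 1000000) ≤ 2 * k := by
    have h5 : N * (k ^ 2 * (17 / 1000000)) ≤ N * (2 * k) := by linarith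
    exact le_of_mul_le_mul_left h5 hNpos
  have h5 : (T.card : ℝ) ≤ ((200000 : ℕ) : ℝ) := by
    rw [← hk]
    by_contra h
    push Not at h
    have h6 : (200000 : ℝ) < k := by
      refine lt_of_le_of_lt (le_of_eq ?_) h
      norm_num
    have h7 : 0 < k * (k * (17 / 1000000) - 2) := mul_pos (by linarith) (by linarith)
    have h8 : k * (k * (17 / 1000000) - 2) = k ^ 2 * (17 / 1000000) - 2 * k := by ring
    linarith
  have h6 : T.card ≤ 200000 := Nat.cast_le.1 h5
  exact h6.trans (by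
    have : 0 < 2 ^ N0 := by positivity
    omega)

/-- The exponential rate of approximation of `1` by sums of distinct unit fractions with
denominators up to `N` is smaller than `0.6931`, if it exists. -/
lemma limit_bound {f : ℕ → ℝ} (hf : ∀ N, 0 < f N ∧ ∃ A : Finset ℕ, A ⊆ Icc 1 N ∧ f N = |1 - H A|)
    {c : ℝ} (h : Tendsto (fun N : ℕ => -Real.log (f N) / N) atTop (𝓝 c)) :
    c < 6931 / 10000 := by
  classical
  by_contra hcon
  push Not at hcon
  obtain ⟨K, hK⟩ := cluster_aux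
  set c1 : ℝ := 69308 / 100000 with hc1
  have hcc : c1 < c := by
    rw [hc1]
    linarith
  have hc1pos : 0 < c1 := by
    rw [hc1]
    norm_num
  have hc : 0 < c := by linarith
  obtain ⟨Q, hQ⟩ := exists_nat_gt (c1 * K / (c - c1))
  rw [div_lt_iff₀ (by linarith)] at hQ
  have hQ' : c1 * (Q + K) < c * Q := by linarith
  have hQ0 : (0 : ℝ) ≤ Q := Nat.cast_nonneg _
  have hK0 : (0 : ℝ) ≤ K := Nat.cast_nonneg _
  -- choose `ε`
  set ε : ℝ := min (c / (2 * (2 * (Q + K) + 1))) ((c * Q - c1 * (Q + K)) / (2 * (Q + 1))) with hε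
  have hε0 : 0 < ε := lt_min (by positivity) (div_pos (by linarith) (by positivity))
  have hε1 : ε * (2 * (Q + K) + 1) < c := by
    have h1 : ε ≤ c / (2 * (2 * (Q + K) + 1)) := min_le_left _ _
    rw [le_div_iff₀ (by positivity)] at h1
    linarith
  have hε2 : c1 * (Q + K) < (c - ε) * Q := by
    have h1 : ε ≤ (c * Q - c1 * (Q + K)) / (2 * (Q + 1)) := min_le_right _ _
    rw [le_div_iff₀ (by positivity)] at h1
    nlinarith
  obtain ⟨N0, hN0⟩ := Metric.tendsto_atTop.1 h ε hε0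
  set M : ℕ := N0 + 1 with hM
  have hQpos : 0 < Q := by
    rcases Nat.eq_zero_or_pos Q with h0 | h0
    · exfalso
      rw [h0] at hQ'
      simp only [Nat.cast_zero, zero_add, mul_zero] at hQ'
      have : 0 ≤ c1 * K := by positivity
      linarith
    · exact h0
  have hMR : (1 : ℝ) ≤ M := by
    rw [hM]
    push_cast
    have : (0 : ℝ) ≤ N0 := Nat.cast_nonneg _
    linarith
  have hu : ∀ i : ℕ, (c - ε) * (M * (Q + i)) < -Real.log (f (M * (Q + i))) ∧
      -Real.log (f (M * (Q + i))) < (c + ε) * (M * (Q + i)) := by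
    intro i
    have h1 : N0 ≤ M * (Q + i) := by
      calc N0 ≤ M * 1 := by omega
        _ ≤ M * (Q + i) := Nat.mul_le_mul_left _ (by omega)
    have h2 := hN0 _ h1
    rw [Real.dist_eq, abs_lt] at h2
    have h3 : (0 : ℝ) < ((M * (Q + i) : ℕ) : ℝ) := by
      have : 0 < M * (Q + i) := Nat.mul_pos (by omega) (by omega)
      exact_mod_cast this
    have e : ((M * (Q + i) : ℕ) : ℝ) = (M : ℝ) * (Q + i) := by push_cast; ring
    obtain ⟨h4, h5⟩ := h2
    have h6 : (c - ε) < -Real.log (f (M * (Q + i))) / ((M * (Q + i) : ℕ) : ℝ) := by linarith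
    have h7 : -Real.log (f (M * (Q + i))) / ((M * (Q + i) : ℕ) : ℝ) < c + ε := by linarith
    rw [lt_div_iff₀ h3, e] at h6
    rw [div_lt_iff₀ h3, e] at h7
    exact ⟨h6, h7⟩
  choose A hA using fun N => (hf N).2
  -- strict monotonicity
  have hmono : ∀ i j : ℕ, i ≤ K → i < j → f (M * (Q + j)) < f (M * (Q + i)) := by
    intro i j hi hij
    have h1 := (hu i).2
    have h2 := (hu j).1
    have hij' : (i : ℝ) + 1 ≤ j := by exact_mod_cast hij
    have hiK : (i : ℝ) ≤ K := by exact_mod_cast hi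
    have hi0 : (0 : ℝ) ≤ i := Nat.cast_nonneg _
    have hcε : 0 < c - ε := by nlinarith
    have h3 : (c + ε) * (Q + i) < (c - ε) * (Q + j) := by
      have h4 : (c - ε) * (Q + (i + 1)) ≤ (c - ε) * (Q + j) := by gcongr
      have h5 : ε * (2 * (Q + i) + 1) ≤ ε * (2 * (Q + K) + 1) := by gcongr
      nlinarith
    have h4 : (c + ε) * (M * (Q + i)) < (c - ε) * (M * (Q + j)) := by
      have h5 : (M : ℝ) * ((c + ε) * (Q + i)) < M * ((c - ε) * (Q + j)) := by gcongr
      linarith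
    have h5 : Real.log (f (M * (Q + j))) < Real.log (f (M * (Q + i))) := by linarith
    exact (Real.log_lt_log_iff (hf _).1 (hf _).1).1 h5
  set g : ℕ → ℝ := fun i => H (A (M * (Q + i))) with hg
  have hinj : Set.InjOn g (range (K + 1) : Finset ℕ) := by
    intro i hi j hj hij
    rw [Finset.mem_coe, Finset.mem_range] at hi hj
    have h1 : f (M * (Q + i)) = f (M * (Q + j)) := by
      rw [(hA _).2, (hA (M * (Q + j))).2]
      simp only [hg] at hij
      rw [hij]
    rcases lt_trichotomy i j with h2 | h2 | h2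
    · exact absurd h1 (hmono i j (by omega) h2).ne'
    · exact h2
    · exact absurd h1 (hmono j i (by omega) h2).ne
  have hfin := hK (M * (Q + K)) 1 ((range (K + 1)).image g) (by
    intro t ht
    rw [Finset.mem_image] at ht
    obtain ⟨i, hi, rfl⟩ := ht
    rw [Finset.mem_range] at hi
    refine ⟨⟨A (M * (Q + i)), ?_, rfl⟩, ?_⟩
    · refine (hA _).1.trans (Finset.Icc_subset_Icc_right ?_)
      exact Nat.mul_le_mul_left _ (by omega)
    · have h1 : |g i - 1| = f (M * (Q + i)) := by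
        rw [(hA (M * (Q + i))).2, abs_sub_comm]
      rw [h1]
      have h2 := (hu i).1
      have h3 : (c - ε) * (M * Q) ≤ (c - ε) * (M * (Q + i)) := by
        have : 0 ≤ c - ε := by nlinarith
        have hi0 : (0 : ℝ) ≤ i := Nat.cast_nonneg _
        gcongr
        linarith
      have h4 : M * (c1 * (Q + K)) ≤ M * ((c - ε) * Q) := by gcongr
      rw [← Real.log_le_iff_le_exp (hf _).1]
      push_cast
      linarith)
  rw [Finset.card_image_of_injOn hinj, Finset.card_range] at hfin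
  omega

/-- Every set `A` with entries up to `n` and `H(A) ≠ 1` has `|1 - H(A)| > e^{-c n}`. -/
def Good (c : ℝ) (n : ℕ) : Prop :=
  ∀ A : Finset ℕ, A ⊆ Icc 1 n → H A ≠ 1 → Real.exp (-(c * n)) < |1 - H A|

/-- `s` is a distance from `1` to some `H(A)`. -/
def Val (n : ℕ) (s : ℝ) : Prop := ∃ A : Finset ℕ, A ⊆ Icc 1 n ∧ |1 - H A| = s

lemma val_mono {n m : ℕ} (h : n ≤ m) {s : ℝ} (hs : Val n s) : Val m s := by
  obtain ⟨A, h1, h2⟩ := hs
  exact ⟨A, h1.trans (Finset.Icc_subset_Icc_right h), h2⟩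

/-- the integer `L_n (1 - H(A))` -/
def Z (n : ℕ) (A : Finset ℕ) : ℤ := (L n : ℤ) - Y n A

lemma mul_Z {n : ℕ} {A : Finset ℕ} (hA : A ⊆ Icc 1 n) :
    (L n : ℝ) * (1 - H A) = (Z n A : ℝ) := by
  unfold Z
  rw [mul_sub, mul_one, mul_H hA]
  push_cast
  rfl

lemma val_lower {n : ℕ} {s a : ℝ} (hs : Val n s) (h0 : 0 < s) (ha : s ≤ Real.exp (-a)) :
    a ≤ Chebyshev.psi n := by
  obtain ⟨A, h1, h2⟩ := hs
  have hL : (0 : ℝ) < L n := by exact_mod_cast L_pos n
  have h3 : (L n : ℝ) * s = |(Z n A : ℝ)| := by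
    rw [← mul_Z h1, abs_mul, abs_of_pos hL, h2]
  have hz : Z n A ≠ 0 := by
    intro h
    rw [h, Int.cast_zero, abs_zero] at h3
    have : 0 < (L n : ℝ) * s := by positivity
    linarith
  have hz1 : (1 : ℝ) ≤ |(Z n A : ℝ)| := by
    have : 1 ≤ |Z n A| := Int.one_le_abs hz
    exact_mod_cast this
  rw [← h3] at hz1
  have h4 : 1 ≤ (L n : ℝ) * Real.exp (-a) := hz1.trans (by gcongr)
  have h5 := Real.log_le_log one_pos h4
  rw [Real.log_one, Real.log_mul hL.ne' (Real.exp_pos _).ne', Real.log_exp, log_L] at h5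
  linarith

lemma Z_mod {n p : ℕ} (hp : p.Prime) (h1 : p ≤ n) (h2 : n < 2 * p) {A : Finset ℕ}
    (hA : A ⊆ Icc 1 n) :
    (p : ℤ) ∣ Z n A - (if p ∈ A then -((L n / p : ℕ) : ℤ) else 0) := by
  have hj : n / p = 1 := by
    apply Nat.div_eq_of_lt_le
    · omega
    · omega
  have h := Y_mod hp h1 hA
  have e : ∑ m ∈ (Icc 1 (n / p)).filter (fun m => p * m ∈ A), ((L n / (p * m) : ℕ) : ℤ) =
      if p ∈ A then ((L n / p : ℕ) : ℤ) else 0 := by
    rw [hj, Finset.Icc_self, Finset.filter_singleton, mul_one]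
    split_ifs with h3
    · rw [Finset.sum_singleton, mul_one]
    · rfl
  rw [e] at h
  have hL : (p : ℤ) ∣ (L n : ℤ) := by exact_mod_cast dvd_L hp.one_lt.le h1
  have e2 : Z n A - (if p ∈ A then -((L n / p : ℕ) : ℤ) else 0) =
      (L n : ℤ) - (Y n A - if p ∈ A then ((L n / p : ℕ) : ℤ) else 0) := by
    unfold Z
    split_ifs <;> ring
  rw [e2]
  exact dvd_sub hL h

lemma pair_dvd {n : ℕ} {A B : Finset ℕ} (hA : A ⊆ Icc 1 n) (hB : B ⊆ Icc 1 n)
    {p : ℕ} (hp : p.Prime) (h1 : p ≤ n) (h2 : n < 2 * p) :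
    (p : ℤ) ∣ Z n A * Z n B * (Z n A - Z n B) := by
  have ha := Z_mod hp h1 h2 hA
  have hb := Z_mod hp h1 h2 hB
  by_cases hpA : p ∈ A
  · by_cases hpB : p ∈ B
    · rw [if_pos hpA] at ha
      rw [if_pos hpB] at hb
      have := dvd_sub ha hb
      refine Dvd.dvd.mul_left ?_ _
      have e : Z n A - Z n B = Z n A - -((L n / p : ℕ) : ℤ) - (Z n B - -((L n / p : ℕ) : ℤ)) := by
        ring
      rw [e]
      exact this
    · rw [if_neg hpB, sub_zero] at hb
      exact Dvd.dvd.mul_right (Dvd.dvd.mul_left hb _) _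
  · rw [if_neg hpA, sub_zero] at ha
    exact Dvd.dvd.mul_right (Dvd.dvd.mul_right ha _) _

/-- Two different small values at the same length. -/
lemma pair {m : ℕ} {s t a b : ℝ} (hs : Val m s) (ht : Val m t) (hs0 : 0 < s) (ht0 : 0 < t)
    (hne : s ≠ t) (hsA : s ≤ Real.exp (-a)) (htB : t ≤ Real.exp (-b)) (hAB : a ≤ b) :
    Chebyshev.theta m - Chebyshev.theta (m / 2 : ℕ) ≤ 3 * Chebyshev.psi m - 2 * a - b + 1 := by
  obtain ⟨A, hA, hAs⟩ := hs
  obtain ⟨B, hB, hBt⟩ := ht
  have hL : (0 : ℝ) < L m := by exact_mod_cast L_pos m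
  have hz : |(Z m A : ℝ)| = L m * s := by rw [← mul_Z hA, abs_mul, abs_of_pos hL, hAs]
  have hw : |(Z m B : ℝ)| = L m * t := by rw [← mul_Z hB, abs_mul, abs_of_pos hL, hBt]
  have hz0 : Z m A ≠ 0 := by
    intro h
    rw [h, Int.cast_zero, abs_zero] at hz
    have : 0 < (L m : ℝ) * s := by positivity
    linarith
  have hw0 : Z m B ≠ 0 := by
    intro h
    rw [h, Int.cast_zero, abs_zero] at hw
    have : 0 < (L m : ℝ) * t := by positivity
    linarith
  have hd0 : Z m A - Z m B ≠ 0 := by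
    intro h
    have h1 : Z m A = Z m B := by linarith
    rw [h1, hw] at hz
    exact hne (mul_left_cancel₀ hL.ne' hz).symm
  set W : ℤ := Z m A * Z m B * (Z m A - Z m B) with hWdef
  have hW0 : W ≠ 0 := mul_ne_zero (mul_ne_zero hz0 hw0) hd0
  have hdvd : ∏ p ∈ (Finset.Ioc (m / 2) m).filter Nat.Prime, p ∣ W.natAbs := by
    refine Finset.prod_primes_dvd _ (fun p hp => ?_) (fun p hp => ?_)
    · rw [Finset.mem_filter] at hp
      exact hp.2.prime
    · rw [Finset.mem_filter, Finset.mem_Ioc] at hp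
      exact Int.natCast_dvd.1 (pair_dvd hA hB hp.2 hp.1.2 (by omega))
  have hle : ∏ p ∈ (Finset.Ioc (m / 2) m).filter Nat.Prime, p ≤ W.natAbs :=
    Nat.le_of_dvd (Int.natAbs_pos.2 hW0) hdvd
  have hleR : ((∏ p ∈ (Finset.Ioc (m / 2) m).filter Nat.Prime, p : ℕ) : ℝ) ≤ |(W : ℝ)| := by
    have h8 : |(W : ℝ)| = ((W.natAbs : ℕ) : ℝ) := by rw [Nat.cast_natAbs, Int.cast_abs]
    rw [h8]
    exact Nat.cast_le.2 hle
  set P : ℝ := L m * Real.exp (-a) with hP
  set Q : ℝ := L m * Real.exp (-b) with hQ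
  have hP0 : 0 < P := by positivity
  have hQ0 : 0 < Q := by positivity
  have hzP : |(Z m A : ℝ)| ≤ P := by
    rw [hz]
    exact mul_le_mul_of_nonneg_left hsA hL.le
  have hwQ : |(Z m B : ℝ)| ≤ Q := by
    rw [hw]
    exact mul_le_mul_of_nonneg_left htB hL.le
  have hQP : Q ≤ P := by rw [hP, hQ]; gcongr
  have hWb : |(W : ℝ)| ≤ P * Q * (2 * P) := by
    have e : (W : ℝ) = (Z m A : ℝ) * (Z m B : ℝ) * ((Z m A : ℝ) - (Z m B : ℝ)) := by
      rw [hWdef]
      push_cast
      rfl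
    rw [e, abs_mul, abs_mul]
    have h4 : |(Z m A : ℝ) - (Z m B : ℝ)| ≤ 2 * P := by
      have := abs_sub (Z m A : ℝ) (Z m B : ℝ)
      linarith
    gcongr
  have hm2' : m / 2 ≤ m := by omega
  rw [theta_sub hm2', ← Real.log_prod]
  · have h7 : Real.log (P * Q * (2 * P)) ≤ 3 * Chebyshev.psi m - 2 * a - b + 1 := by
      rw [Real.log_mul (by positivity) (by positivity), Real.log_mul hP0.ne' hQ0.ne',
        Real.log_mul (by norm_num) hP0.ne', hP, hQ, Real.log_mul hL.ne' (Real.exp_pos _).ne',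
        Real.log_mul hL.ne' (Real.exp_pos _).ne', Real.log_exp, Real.log_exp, log_L]
      have := Real.log_two_lt_d9
      linarith
    refine le_trans (Real.log_le_log ?_ ?_) h7
    · refine Finset.prod_pos fun p hp => ?_
      rw [Finset.mem_filter] at hp
      exact_mod_cast hp.2.pos
    · have h9 := hleR.trans hWb
      rw [Nat.cast_prod] at h9
      exact h9
  · intro p hp
    rw [Finset.mem_filter] at hp
    have := hp.2.pos
    positivity

/-- Different small values belong to lengths that are far apart. -/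
lemma pairN {c d : ℝ} (hc : 5 / 6 < c) (hc1 : c < 1) (hd : d * (5 - 2 * c) < 4 * c) :
    ∃ N : ℕ, ∀ n m : ℕ, N ≤ n → n ≤ m → ∀ s t : ℝ, Val n s → Val m t → 0 < s → 0 < t →
      s ≤ Real.exp (-(c * n)) → t ≤ Real.exp (-(c * m)) → s ≠ t → d * n ≤ m := by
  set Γ : ℝ := 4 * c - d * (5 - 2 * c) with hΓ
  have hΓ0 : 0 < Γ := by
    rw [hΓ]
    linarith
  set ε : ℝ := Γ / 30 with hε
  have hε0 : 0 < ε := by positivity
  obtain ⟨X, hX, hb⟩ := bounds hε0
  refine ⟨2 * ⌈X⌉₊ + 2 + ⌈4 / Γ⌉₊, fun n m hN hnm s t hs ht hs0 ht0 hsn htm hne => ?_⟩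
  by_contra hcon
  push Not at hcon
  have hnm' : (n : ℝ) ≤ m := by exact_mod_cast hnm
  have hXn : X ≤ (⌈X⌉₊ : ℝ) := Nat.le_ceil X
  have hΓn : 4 / Γ ≤ (⌈4 / Γ⌉₊ : ℝ) := Nat.le_ceil _
  have hΓnn : (0 : ℝ) ≤ (⌈4 / Γ⌉₊ : ℝ) := Nat.cast_nonneg _
  have hn0 : (2 * (⌈X⌉₊ : ℝ) + 2 + ⌈4 / Γ⌉₊) ≤ n := by exact_mod_cast hN
  have hn1 : (0 : ℝ) < n := by linarith
  have hn4 : 4 < n * Γ := by
    have : 4 / Γ < n := by linarith
    rwa [div_lt_iff₀ hΓ0] at this
  have hp := pair (val_mono hnm hs) ht hs0 ht0 hne hsn htm (by gcongr)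
  have hhalf : ⌈X⌉₊ ≤ m / 2 := by omega
  have hhalf' : X ≤ ((m / 2 : ℕ) : ℝ) := hXn.trans (by exact_mod_cast hhalf)
  have hhalf2 : ((m / 2 : ℕ) : ℝ) ≤ (m : ℝ) / 2 := Nat.cast_div_le
  obtain ⟨b1, -, -, b4⟩ := hb m (by linarith)
  obtain ⟨-, d2, -, -⟩ := hb _ hhalf'
  have h9 : (1 + ε) * ((m / 2 : ℕ) : ℝ) ≤ (1 + ε) * ((m : ℝ) / 2) := by gcongr
  have h10 : 4 * c * n ≤ (5 - 2 * c + 9 * ε) * m + 2 := by linarith
  have hd1 : 1 < d := by
    have : (n : ℝ) < d * n := lt_of_le_of_lt hnm' hcon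
    by_contra h
    push Not at h
    have : d * n ≤ 1 * n := by gcongr
    linarith
  have hd2 : d < 4 / 3 := by
    by_contra h
    push Not at h
    have h1 : 4 / 3 * (5 - 2 * c) ≤ d * (5 - 2 * c) := by
      have : 0 ≤ 5 - 2 * c := by linarith
      gcongr
    linarith
  have hpos : 0 < 5 - 2 * c + 9 * ε := by linarith
  have h11 : (5 - 2 * c + 9 * ε) * m < (5 - 2 * c + 9 * ε) * (d * n) := by
    gcongr
  have h14 : 30 * ε = Γ := by rw [hε]; ring
  have h15 : 9 * ε * (d * n) ≤ 12 * ε * n := by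
    have : ε * n * d ≤ ε * n * (4 / 3) := by gcongr
    linarith
  have h16 : (5 - 2 * c + 9 * ε) * (d * n) = (d * (5 - 2 * c)) * n + 9 * ε * (d * n) := by ring
  have h17 : d * (5 - 2 * c) = 4 * c - Γ := by rw [hΓ]; ring
  rw [h16, h17] at h11
  have h18 : 12 * ε * n = 2 / 5 * (n * Γ) := by rw [← h14]; ring
  have h19 : (4 * c - Γ) * n = 4 * c * n - n * Γ := by ring
  linarith

lemma not_good {c : ℝ} {n : ℕ} (h : ¬ Good c n) :
    ∃ s : ℝ, 0 < s ∧ s ≤ Real.exp (-(c * n)) ∧ Val n s := by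
  unfold Good at h
  push Not at h
  obtain ⟨A, h1, h2, h3⟩ := h
  exact ⟨|1 - H A|, abs_pos.2 (sub_ne_zero.2 h2.symm), h3, A, h1, rfl⟩

/-- The numerical estimate behind `count`. -/
lemma final {c β Δ q x m F K : ℝ} (hc0 : 0 < c) (hc1 : c < 1) (hβ0 : 0 < β) (hβ1 : β < 1)
    (hΔ : Δ = β * (2 * c - 1) / 4 - (1 - c)) (hΔ0 : 0 < Δ) (hΔ2 : Δ ≤ 1 / 4)
    (hq : q = (5 - 2 * c) / (4 * c) + Δ / 4) (hq0 : 0 < q) (hq1 : q < 1) (hx : 0 < x)
    (hm1 : c * x ≤ (1 + Δ / 4) * m) (hx1 : 2 ≤ x * Δ)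
    (h : F + m ≤ β * (q * m) + K + x + 1) : F ≤ β * x + K := by
  have hβq : β * q < 1 := by
    calc β * q < 1 * 1 := by gcongr
      _ = 1 := by norm_num
  have hmx2 : (c - Δ / 4) * x ≤ m := by
    have h2 : (c - Δ / 4) * (1 + Δ / 4) ≤ c := by
      have e : (c - Δ / 4) * (1 + Δ / 4) = c - (Δ / 4) * (1 - c) - (Δ / 4) ^ 2 := by ring
      have e1 : 0 ≤ (Δ / 4) * (1 - c) := mul_nonneg (by linarith) (by linarith)
      have e2 : 0 ≤ (Δ / 4) ^ 2 := sq_nonneg _
      linarith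
    have h3 : (c - Δ / 4) * (1 + Δ / 4) * x ≤ c * x := by gcongr
    have h4 : (1 + Δ / 4) * ((c - Δ / 4) * x) ≤ (1 + Δ / 4) * m := by linarith
    exact le_of_mul_le_mul_left h4 (by linarith)
  have h5 : (1 - β * q) * ((c - Δ / 4) * x) ≤ (1 - β * q) * m := by
    have : 0 ≤ 1 - β * q := by linarith
    gcongr
  have h6 : c * q = (5 - 2 * c) / 4 + c * Δ / 4 := by
    rw [hq]
    field_simp
  have h7 : 1 - β + Δ / 2 ≤ (1 - β * q) * (c - Δ / 4) := by
    have h8 : (1 - β * q) * (c - Δ / 4) =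
        c - β * (c * q) - Δ / 4 + β * q * (Δ / 4) := by ring
    rw [h8, h6]
    have h9 : 0 ≤ β * q * (Δ / 4) := by positivity
    have h10 : β * (c * Δ / 4) ≤ Δ / 4 := by
      have e1 : β * c ≤ 1 := by
        calc β * c ≤ 1 * 1 := by gcongr
          _ = 1 := by norm_num
      calc β * (c * Δ / 4) = (β * c) * (Δ / 4) := by ring
        _ ≤ 1 * (Δ / 4) := by
          have : 0 ≤ Δ / 4 := by linarith
          gcongr
        _ = Δ / 4 := one_mul _
    have h11 : c - β * ((5 - 2 * c) / 4) = 1 - β + Δ := by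
      rw [hΔ]
      ring
    have h12 : c - β * ((5 - 2 * c) / 4 + c * Δ / 4) - Δ / 4 + β * q * (Δ / 4) =
        (c - β * ((5 - 2 * c) / 4)) - β * (c * Δ / 4) - Δ / 4 + β * q * (Δ / 4) := by ring
    rw [h12, h11]
    linarith
  have h12 : (1 - β + Δ / 2) * x ≤ (1 - β * q) * ((c - Δ / 4) * x) := by
    rw [← mul_assoc]
    gcongr
  have h13 : (1 - β + Δ / 2) * x ≤ (1 - β * q) * m := h12.trans h5
  have h14 : (1 - β + Δ / 2) * x = x - β * x + x * Δ / 2 := by ring
  have h15 : (1 - β * q) * m = m - β * (q * m) := by ring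
  rw [h14, h15] at h13
  linarith

open Classical in
/-- Upper density of the bad lengths. -/
lemma count {c β : ℝ} (hc : 5 / 6 < c) (hc1 : c < 1) (hβ : 4 * (1 - c) / (2 * c - 1) < β) :
    ∃ K : ℝ, ∀ x : ℕ, (((Icc 1 x).filter fun n => ¬ Good c n).card : ℝ) ≤ β * x + K := by
  by_cases hβ1 : 1 ≤ β
  · refine ⟨0, fun x => ?_⟩
    have h1 : ((Icc 1 x).filter fun n => ¬ Good c n).card ≤ x := by
      calc ((Icc 1 x).filter fun n => ¬ Good c n).card ≤ (Icc 1 x).card :=
            Finset.card_filter_le _ _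
        _ = x := by simp
    have h2 : (((Icc 1 x).filter fun n => ¬ Good c n).card : ℝ) ≤ x := by exact_mod_cast h1
    have h3 : (0 : ℝ) ≤ x := Nat.cast_nonneg _
    nlinarith
  push Not at hβ1
  have h2c : 0 < 2 * c - 1 := by linarith
  have hc0 : 0 < c := by linarith
  rw [div_lt_iff₀ h2c] at hβ
  have hβ0 : 0 < β := by
    by_contra h
    push Not at h
    nlinarith
  set Δ : ℝ := β * (2 * c - 1) / 4 - (1 - c) with hΔ
  have hΔ0 : 0 < Δ := by
    rw [hΔ]
    linarith
  have hΔ1 : Δ ≤ (6 * c - 5) / 4 := by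
    rw [hΔ]
    nlinarith
  -- `q = 1 / d`
  set q : ℝ := (5 - 2 * c) / (4 * c) + Δ / 4 with hq
  have h4c : 0 < 4 * c := by linarith
  have hq1' : (5 - 2 * c) / (4 * c) ≤ 1 - Δ := by
    rw [div_le_iff₀ h4c]
    nlinarith
  have hq1 : q < 1 := by
    rw [hq]
    linarith
  have hq0' : 0 < (5 - 2 * c) / (4 * c) := by
    apply div_pos <;> linarith
  have hq0 : 0 < q := by
    rw [hq]
    linarith
  have hd : (1 / q) * (5 - 2 * c) < 4 * c := by
    rw [one_div, inv_mul_lt_iff₀ hq0, hq]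
    have : (5 - 2 * c) = (5 - 2 * c) / (4 * c) * (4 * c) := by field_simp
    nlinarith
  obtain ⟨N, hN⟩ := pairN hc hc1 hd
  obtain ⟨X, hX, hb⟩ := bounds (show 0 < Δ / 4 by linarith)
  have hXn : X ≤ (⌈X⌉₊ : ℝ) := Nat.le_ceil X
  set X0 : ℕ := ⌈2 / Δ⌉₊ + ⌈(1 + Δ / 4) * ⌈X⌉₊ / c⌉₊ + ⌈2 * (N : ℝ) / (q * c)⌉₊ + 2 with hX0
  refine ⟨X0, fun x => ?_⟩
  induction x using Nat.strong_induction_on with
  | _ x ih =>
    by_cases hx : x < X0
    · have h1 : ((Icc 1 x).filter fun n => ¬ Good c n).card ≤ X0 := by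
        calc ((Icc 1 x).filter fun n => ¬ Good c n).card ≤ (Icc 1 x).card :=
              Finset.card_filter_le _ _
          _ = x := by simp
          _ ≤ X0 := hx.le
      have h2 : (((Icc 1 x).filter fun n => ¬ Good c n).card : ℝ) ≤ X0 := by exact_mod_cast h1
      have h3 : (0 : ℝ) ≤ β * x := by positivity
      linarith
    push Not at hx
    have hxR : (X0 : ℝ) ≤ x := by exact_mod_cast hx
    have hx1 : 2 / Δ ≤ x := by
      have h1 : 2 / Δ ≤ (⌈2 / Δ⌉₊ : ℝ) := Nat.le_ceil _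
      have h2 : (⌈2 / Δ⌉₊ : ℝ) ≤ x := by
        have : ⌈2 / Δ⌉₊ ≤ x := by omega
        exact_mod_cast this
      exact h1.trans h2
    have hx2 : (1 + Δ / 4) * ⌈X⌉₊ / c < x := by
      have h1 : (1 + Δ / 4) * ⌈X⌉₊ / c ≤ (⌈(1 + Δ / 4) * ⌈X⌉₊ / c⌉₊ : ℝ) := Nat.le_ceil _
      have h2 : (⌈(1 + Δ / 4) * ⌈X⌉₊ / c⌉₊ : ℝ) < x := by
        have : ⌈(1 + Δ / 4) * ⌈X⌉₊ / c⌉₊ < x := by omega
        exact_mod_cast this
      exact h1.trans_lt h2
    have hx3 : 2 * (N : ℝ) / (q * c) < x := by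
      have h1 : 2 * (N : ℝ) / (q * c) ≤ (⌈2 * (N : ℝ) / (q * c)⌉₊ : ℝ) := Nat.le_ceil _
      have h2 : (⌈2 * (N : ℝ) / (q * c)⌉₊ : ℝ) < x := by
        have : ⌈2 * (N : ℝ) / (q * c)⌉₊ < x := by omega
        exact_mod_cast this
      exact h1.trans_lt h2
    rw [div_le_iff₀ hΔ0] at hx1
    rw [div_lt_iff₀ hc0] at hx2
    rw [div_lt_iff₀ (by positivity)] at hx3
    have hxpos : 0 < x := by omega
    by_cases hxg : Good c x
    · have h1 : (Icc 1 x).filter (fun n => ¬ Good c n) ⊆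
          (Icc 1 (x - 1)).filter (fun n => ¬ Good c n) := by
        intro n hn
        rw [Finset.mem_filter, Finset.mem_Icc] at hn ⊢
        refine ⟨⟨hn.1.1, ?_⟩, hn.2⟩
        have : n ≠ x := by
          rintro rfl
          exact hn.2 hxg
        omega
      have h2 := Finset.card_le_card h1
      have h3 := ih (x - 1) (by omega)
      have h4 : (((Icc 1 x).filter fun n => ¬ Good c n).card : ℝ) ≤
          ((Icc 1 (x - 1)).filter (fun n => ¬ Good c n)).card := by exact_mod_cast h2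
      have h5 : ((x - 1 : ℕ) : ℝ) ≤ x := by
        have : x - 1 ≤ x := by omega
        exact_mod_cast this
      have h6 : β * ((x - 1 : ℕ) : ℝ) ≤ β * x := by gcongr
      linarith
    · obtain ⟨s, hs0, hsx, hsv⟩ := not_good hxg
      have hex : ∃ m : ℕ, Val m s := ⟨x, hsv⟩
      set m := Nat.find hex with hm
      have hmv : Val m s := Nat.find_spec hex
      have hmx : m ≤ x := Nat.find_min' hex hsv
      have hmin : ∀ n : ℕ, n < m → ¬ Val n s := fun n hn => Nat.find_min hex hn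
      have hmxR : (m : ℝ) ≤ x := by exact_mod_cast hmx
      have hψ := val_lower hmv hs0 hsx
      -- `m` is large
      have hmX : ⌈X⌉₊ ≤ m := by
        by_contra h
        push Not at h
        have h1 : Chebyshev.psi m ≤ Chebyshev.psi (⌈X⌉₊ : ℕ) :=
          Chebyshev.psi_mono (by exact_mod_cast h.le)
        obtain ⟨-, -, -, h2⟩ := hb _ hXn
        linarith
      have hmR : X ≤ (m : ℝ) := hXn.trans (by exact_mod_cast hmX)
      obtain ⟨-, -, -, hψ2⟩ := hb _ hmR
      have hm1 : c * x ≤ (1 + Δ / 4) * m := hψ.trans hψ2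
      have hΔ2 : Δ ≤ 1 / 4 := by linarith
      have hm0 : (0 : ℝ) < m := by linarith
      have hNm : (N : ℝ) ≤ q * m := by
        have h1 : q * (c * x) ≤ q * ((1 + Δ / 4) * m) := by gcongr
        have h2 : q * ((1 + Δ / 4) * m) ≤ q * (2 * m) := by
          have : 1 + Δ / 4 ≤ 2 := by linarith
          gcongr
        linarith
      set w : ℕ := ⌊q * m⌋₊ with hw
      have hwle : (w : ℝ) ≤ q * m := Nat.floor_le (by positivity)
      have hwx : w < x := by
        have h1 : q * m < 1 * m := by gcongr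
        have h2 : (w : ℝ) < x := by linarith
        exact_mod_cast h2
      have hsub : (Icc 1 x).filter (fun n => ¬ Good c n) ⊆
          (Icc 1 w).filter (fun n => ¬ Good c n) ∪ Icc m x := by
        intro n hn
        rw [Finset.mem_filter, Finset.mem_Icc] at hn
        rw [Finset.mem_union, Finset.mem_filter, Finset.mem_Icc, Finset.mem_Icc]
        rcases lt_or_ge n m with h1 | h1
        · left
          refine ⟨⟨hn.1.1, Nat.le_floor ?_⟩, hn.2⟩
          rcases lt_or_ge n N with h2 | h2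
          · have : (n : ℝ) < N := by exact_mod_cast h2
            linarith
          · obtain ⟨t, ht0, htn, htv⟩ := not_good hn.2
            have hst : t ≠ s := by
              rintro rfl
              exact hmin n h1 htv
            have hsm : s ≤ Real.exp (-(c * m)) := by
              refine hsx.trans (Real.exp_le_exp.2 ?_)
              have : c * m ≤ c * x := by gcongr
              linarith
            have h3 := hN n m h2 h1.le t s htv hmv ht0 hs0 htn hsm hst
            rw [one_div, inv_mul_le_iff₀ hq0] at h3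
            exact h3
        · right
          exact ⟨h1, hn.1.2⟩
      have hcd := (Finset.card_le_card hsub).trans (Finset.card_union_le _ _)
      rw [Nat.card_Icc] at hcd
      have hcd' : (((Icc 1 x).filter fun n => ¬ Good c n).card : ℝ) + m ≤
          (((Icc 1 w).filter fun n => ¬ Good c n).card : ℝ) + x + 1 := by
        have : ((Icc 1 x).filter fun n => ¬ Good c n).card + m ≤
            ((Icc 1 w).filter fun n => ¬ Good c n).card + x + 1 := by omega
        exact_mod_cast this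
      have hi := ih w hwx
      have h1 : β * (w : ℝ) ≤ β * (q * m) := by gcongr
      have hxx : (0 : ℝ) < x := by exact_mod_cast hxpos
      exact final hc0 hc1 hβ0 hβ1 hΔ hΔ0 hΔ2 hq hq0 hq1 hxx hm1 hx1 (by linarith)

open Classical in
/-- A good length in every interval `[M, κ M]` with `κ > 1 / c`. -/
lemma syndetic {c κ : ℝ} (hc : 5 / 6 < c) (hc1 : c < 1) (hκ : 1 < κ * c) :
    ∃ N : ℕ, ∀ M : ℕ, N ≤ M → ∃ n : ℕ, M ≤ n ∧ (n : ℝ) ≤ κ * M ∧ Good c n := by
  have hc0 : 0 < c := by linarith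
  have h7 : 0 < 5 - 2 * c := by linarith
  -- choose `d > 1` with `d (7 - 2 c) < 6 c`
  obtain ⟨d, hd1, hd⟩ : ∃ d : ℝ, 1 < d ∧ d * (5 - 2 * c) < 4 * c := by
    refine ⟨(1 + 4 * c / (5 - 2 * c)) / 2, ?_, ?_⟩
    · have : 1 < 4 * c / (5 - 2 * c) := by
        rw [lt_div_iff₀ h7]
        linarith
      linarith
    · have h7' : 5 - 2 * c ≠ 0 := h7.ne'
      have e1 : 4 * c / (5 - 2 * c) * (5 - 2 * c) = 4 * c := div_mul_cancel₀ _ h7'
      have e2 : (1 + 4 * c / (5 - 2 * c)) / 2 * (5 - 2 * c) =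
          ((5 - 2 * c) + 4 * c / (5 - 2 * c) * (5 - 2 * c)) / 2 := by ring
      rw [e2, e1]
      linarith
  obtain ⟨N, hN⟩ := pairN hc hc1 hd
  have hκ0 : 0 < κ := by
    by_contra h
    push Not at h
    nlinarith
  have hκ1 : 1 < κ := by nlinarith
  set ε : ℝ := (κ * c - 1) / 2 with hε
  have hε0 : 0 < ε := by
    rw [hε]
    linarith
  obtain ⟨X, hX, hb⟩ := bounds hε0
  refine ⟨N + ⌈X⌉₊ + ⌈1 / (d - 1)⌉₊ + ⌈1 / ε⌉₊ + 2, fun M hM => ?_⟩
  by_contra hcon
  push Not at hcon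
  have hMR : (M : ℝ) ≤ κ * M := by
    have : (0 : ℝ) ≤ M := Nat.cast_nonneg _
    nlinarith
  set T : ℕ := ⌊κ * M⌋₊ with hT
  have hTle : (T : ℝ) ≤ κ * M := Nat.floor_le (by positivity)
  have hTlt : κ * M < T + 1 := Nat.lt_floor_add_one _
  have hMT : M ≤ T := Nat.le_floor hMR
  obtain ⟨s, hs0, hsT, hsv⟩ := not_good (hcon T hMT hTle)
  have hex : ∃ m : ℕ, Val m s := ⟨T, hsv⟩
  set m := Nat.find hex with hm
  have hmv : Val m s := Nat.find_spec hex
  have hmT : m ≤ T := Nat.find_min' hex hsv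
  have hmin : ∀ n : ℕ, n < m → ¬ Val n s := fun n hn => Nat.find_min hex hn
  have hXn : X ≤ (⌈X⌉₊ : ℝ) := Nat.le_ceil X
  have hMR2 : ((N : ℝ) + ⌈X⌉₊ + ⌈1 / (d - 1)⌉₊ + ⌈1 / ε⌉₊ + 2) ≤ M := by exact_mod_cast hM
  have hNn : (0 : ℝ) ≤ N := Nat.cast_nonneg _
  have hXnn : (0 : ℝ) ≤ (⌈X⌉₊ : ℝ) := Nat.cast_nonneg _
  have hdn : 1 / (d - 1) ≤ (⌈1 / (d - 1)⌉₊ : ℝ) := Nat.le_ceil _
  have hdn0 : (0 : ℝ) ≤ (⌈1 / (d - 1)⌉₊ : ℝ) := Nat.cast_nonneg _
  have hen : 1 / ε ≤ (⌈1 / ε⌉₊ : ℝ) := Nat.le_ceil _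
  have hen0 : (0 : ℝ) ≤ (⌈1 / ε⌉₊ : ℝ) := Nat.cast_nonneg _
  have hM0 : (0 : ℝ) < M := by linarith
  rcases le_or_gt m M with h1 | h1
  · -- `s` is a value at length `M`: too small
    have h2 := val_lower (val_mono h1 hmv) hs0 hsT
    obtain ⟨-, -, -, h3⟩ := hb M (by linarith)
    have h4 : c * (κ * M - 1) ≤ c * T := by
      have : κ * M - 1 ≤ T := by linarith
      gcongr
    have h5 : 1 / ε < M := by linarith
    rw [div_lt_iff₀ hε0] at h5
    have h6 : κ * c = 1 + 2 * ε := by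
      rw [hε]
      ring
    have h7 : c * (κ * M) = (1 + 2 * ε) * M := by
      rw [← h6]
      ring
    nlinarith
  · obtain ⟨k, hk⟩ : ∃ k, m = k + 1 := ⟨m - 1, by omega⟩
    have hkT : (k : ℝ) ≤ κ * M := by
      have : (k : ℝ) ≤ T := by
        have : k ≤ T := by omega
        exact_mod_cast this
      linarith
    obtain ⟨t, ht0, htk, htv⟩ := not_good (hcon k (by omega) hkT)
    have hts : t ≠ s := by
      rintro rfl
      exact hmin k (by omega) htv
    have hmTR : (m : ℝ) ≤ T := by exact_mod_cast hmT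
    have hsm : s ≤ Real.exp (-(c * m)) := by
      refine hsT.trans (Real.exp_le_exp.2 ?_)
      have : c * m ≤ c * T := by gcongr
      linarith
    have h2 := hN k m (by omega) (by omega) t s htv hmv ht0 hs0 htk hsm hts
    have h3 : (m : ℝ) = k + 1 := by
      rw [hk]
      push_cast
      ring
    have h4 : (M : ℝ) ≤ k := by
      have : M ≤ k := by omega
      exact_mod_cast this
    have h5 : 1 / (d - 1) < k := by linarith
    rw [div_lt_iff₀ (by linarith)] at h5
    nlinarith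


lemma good_mono {c c' : ℝ} (h : c ≤ c') {n : ℕ} (hg : Good c n) : Good c' n := by
  intro A h1 h2
  refine lt_of_le_of_lt (Real.exp_le_exp.2 ?_) (hg A h1 h2)
  have : c * n ≤ c' * n := by gcongr
  linarith

end Pool.Agent.Helper507.Harm
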